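import Pool.Agent.Lib.MP_7ac2ff_gt.Comm

namespace Pool.Agent.Results.MP_7ac2ff_gt.Abelian

open Pool.Agent.Lib.MP_7ac2ff_gt
open scoped Manifold

theorem result (o : S3 → ℝ) (ho : IsOr (𝓡 3) o) (J K S S' : DSI) (h : IsSum o J K S)
    (h' : IsSum o K J S') : Quot.mk QConc S = Quot.mk QConc S' :=
  Quot.eqvGen_sound (sum_comm ho h h')

end Pool.Agent.Results.MP_7ac2ff_gt.Abelian
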