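import Pool.Agent.Lib.MP_7ac2ff_gt.Main

namespace Pool.Agent.Results.MP_7ac2ff_gt.Antipode

open Pool.Agent.Lib.MP_7ac2ff_gt

theorem result (K : DSI) : QConc K K.anti := qconc_anti K

end Pool.Agent.Results.MP_7ac2ff_gt.Antipode
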